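import Pool.Agent.H71.K3.Base

/-! # K3.PlInf : a place over the point at infinity (about 80 lines)

`place_inf`: there is a place `π` of `Om k` with `tt k ∉ π.V`.
PROOF 1. The field automorphism `X ↦ 1/X` of `RatFunc k` over `k` extends to an automorphism `e` of the algebraic closure `Om k` (over `k`),
`e (tt k) = (tt k)⁻¹`.  Take `π₀` with `tt k ↦ 0` (`place_exists k 0`) and pull it back: `V = π₀.V.comap e`, `φ = π₀.φ ∘ e`, constants are
fixed by `e`.  `tt k ∈ V` iff `(tt k)⁻¹ ∈ π₀.V`, and this is false because `tt k ≠ 0` reduces to `0` (`Rd.not_mem` or `Rd.inv`).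
PROOF 2. Copy the proof of `place_exists` (file Pool/Agent/H68/BB/Plc.lean) with the polynomial ring generated by `(tt k)⁻¹`.
`place_over`: `place_exists` and `place_inf`. -/

namespace H71.K3

open Polynomial H68.BB

/-- extension of a homomorphism of fields to an algebraic extension -/
private theorem exists_ext {F Ω M : Type} [Field F] [Field Ω] [Algebra F Ω] [Algebra.IsAlgebraic F Ω]
    [Field M] [IsAlgClosed M] (g : F →+* M) :
    ∃ e : Ω →+* M, ∀ x, e (algebraMap F Ω x) = g x := by
  let _ : Algebra F M := g.toAlgebra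
  let e : Ω →ₐ[F] M := IsAlgClosed.lift
  exact ⟨(e : Ω →+* M), fun x => e.commutes x⟩

private theorem algMap_X' (k : Type) [Field k] : algebraMap k[X] (Om k) X = tt k := by
  rw [IsScalarTower.algebraMap_apply k[X] (RatFunc k) (Om k), RatFunc.algebraMap_X]
  rfl

private theorem tt_transcendental (k : Type) [Field k] : Transcendental k (tt k) := by
  rw [← algMap_X']
  rw [transcendental_iff]
  intro p hp
  have h1 : algebraMap k[X] (Om k) p = 0 := by
    have h2 : aeval (algebraMap k[X] (Om k) X) p = algebraMap k[X] (Om k) (aeval X p) := by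
      rw [aeval_algebraMap_apply]
    rw [h2, aeval_X_left_apply] at hp
    exact hp
  rw [IsScalarTower.algebraMap_apply k[X] (RatFunc k) (Om k)] at h1
  have h3 := (map_eq_zero_iff _ (algebraMap (RatFunc k) (Om k)).injective).mp h1
  exact (map_eq_zero_iff _ (RatFunc.algebraMap_injective k)).mp h3

theorem place_inf (k : Type) [Field k] [IsAlgClosed k] : ∃ π : Place k (Om k), tt k ∉ π.V := by
  have htr : Transcendental k (tt k)⁻¹ := fun h => tt_transcendental k (by
    have h1 := h.inv
    rwa [inv_inv] at h1)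
  let g0 : k[X] →+* Om k := (aeval (tt k)⁻¹ : k[X] →ₐ[k] Om k)
  have hg0 : Function.Injective g0 := transcendental_iff_injective.mp htr
  let g : RatFunc k →+* Om k := IsFractionRing.lift (K := RatFunc k) hg0
  have hgX : g RatFunc.X = (tt k)⁻¹ := by
    rw [← RatFunc.algebraMap_X]
    change IsFractionRing.lift hg0 (algebraMap k[X] (RatFunc k) X) = _
    rw [IsFractionRing.lift_algebraMap]
    exact aeval_X _
  have hgC : ∀ c : k, g (algebraMap k (RatFunc k) c) = cst c := by
    intro c
    rw [IsScalarTower.algebraMap_apply k k[X] (RatFunc k)]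
    change IsFractionRing.lift hg0 (algebraMap k[X] (RatFunc k) _) = _
    rw [IsFractionRing.lift_algebraMap]
    exact aeval_C _ _
  obtain ⟨e, he⟩ := exists_ext (Ω := Om k) g
  have heC : ∀ c : k, e (algebraMap k (Om k) c) = algebraMap k (Om k) c := by
    intro c
    rw [IsScalarTower.algebraMap_apply k (RatFunc k) (Om k), he, hgC]
    exact IsScalarTower.algebraMap_apply k (RatFunc k) (Om k) c
  have heX : e (tt k) = (tt k)⁻¹ := by
    have h1 := he RatFunc.X
    rw [hgX] at h1
    exact h1
  obtain ⟨π₀, h, h0⟩ := place_exists k 0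
  let r : (π₀.V.comap e) →+* π₀.V := (e.comp (π₀.V.comap e).subtype).codRestrict π₀.V.toSubring
    (fun x => x.2)
  refine ⟨⟨π₀.V.comap e, π₀.φ.comp r, fun c => ?_⟩, ?_⟩
  · obtain ⟨h1, h2⟩ := π₀.const c
    have h3 : algebraMap k (Om k) c ∈ π₀.V.comap e := by
      rw [ValuationSubring.mem_comap, heC]
      exact h1
    refine ⟨h3, ?_⟩
    change π₀.φ (r ⟨algebraMap k (Om k) c, h3⟩) = c
    have h4 : r ⟨algebraMap k (Om k) c, h3⟩ = ⟨algebraMap k (Om k) c, h1⟩ :=
      Subtype.ext (heC c)
    rw [h4, h2]
  · intro hmem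
    change tt k ∈ π₀.V.comap e at hmem
    rw [ValuationSubring.mem_comap, heX] at hmem
    have hne : tt k ≠ 0 := by
      have h5 := tt_ne k 0
      rwa [cst, map_zero] at h5
    have h6 : (⟨tt k, h⟩ : π₀.V) * ⟨(tt k)⁻¹, hmem⟩ = 1 :=
      Subtype.ext (mul_inv_cancel₀ hne)
    have h7 := congrArg π₀.φ h6
    rw [map_mul, h0, zero_mul, map_one] at h7
    exact zero_ne_one h7

theorem place_over {k : Type} [Field k] [IsAlgClosed k] (u : Option k) :
    ∃ π : Place k (Om k), OverPl π u := by
  cases u with
  | some c => exact place_exists k c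
  | none => exact place_inf k

end H71.K3
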