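import Pool.Agent.H71.K3.Defs

/-! # K3.Base : the torsion-free quotient of the Chow group, places over points of `ℙ¹`, the fourfold `W` (complete) -/

namespace H71.K3

open Polynomial H68.BB

section classes
variable {k : Type} [Field k] (a b : k[X])

/-- zero-cycles with a positive multiple rationally equivalent to zero -/
noncomputable def Sat : AddSubgroup (Cyc a b) where
  carrier := {z | ∃ n : ℕ, 0 < n ∧ n • z ∈ RatEq a b}
  zero_mem' := ⟨1, one_pos, by rw [smul_zero]; exact (RatEq a b).zero_mem⟩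
  add_mem' := by
    rintro z w ⟨n, hn, hz⟩ ⟨m, hm, hw⟩
    refine ⟨n * m, Nat.mul_pos hn hm, ?_⟩
    rw [smul_add]
    refine (RatEq a b).add_mem ?_ ?_
    · rw [mul_comm, mul_smul]
      exact (RatEq a b).nsmul_mem hz m
    · rw [mul_smul]
      exact (RatEq a b).nsmul_mem hw n
  neg_mem' := by
    rintro z ⟨n, hn, hz⟩
    exact ⟨n, hn, by rw [smul_neg]; exact (RatEq a b).neg_mem hz⟩

/-- the Chow group of zero-cycles of `S × S` modulo torsion -/
abbrev Cl : Type := Cyc a b ⧸ Sat a b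

variable {a b}

/-- the class of a pair of points -/
noncomputable def cl (P Q : Pt a b k) : Cl a b := QuotientAddGroup.mk (pt P Q)

/-- the class of the specialisation of a pair of points -/
noncomputable def spv (π : Place k (Om k)) (p : PP a b (Om k)) : Cl a b := QuotientAddGroup.mk (spc π p)

theorem Cl.tf {n : ℕ} (hn : n ≠ 0) {v : Cl a b} (h : n • v = 0) : v = 0 := by
  induction v using QuotientAddGroup.induction_on with
  | H z =>
    have h1 : (QuotientAddGroup.mk (n • z) : Cl a b) = 0 := h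
    rw [QuotientAddGroup.eq_zero_iff] at h1 ⊢
    obtain ⟨m, hm, h2⟩ := h1
    refine ⟨m * n, Nat.mul_pos hm (Nat.pos_of_ne_zero hn), ?_⟩
    rw [mul_smul]
    exact h2

theorem Cl.half {v : Cl a b} (h : v + v = 0) : v = 0 := Cl.tf two_ne_zero (by rw [two_nsmul]; exact h)

/-- the three coordinates of `P` are integral and specialise to the coordinates of `P₀` -/
structure RdP (π : Place k (Om k)) (P : Pt a b (Om k)) (P₀ : Pt a b k) : Prop where
  t : Rd π.V π.φ P.t P₀.t
  x : Rd π.V π.φ P.x P₀.x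
  y : Rd π.V π.φ P.y P₀.y

theorem RdP.int {π : Place k (Om k)} {P : Pt a b (Om k)} {P₀ : Pt a b k} (h : RdP π P P₀) : P.Int π :=
  ⟨h.t.mem, h.x.mem, h.y.mem⟩

theorem RdP.sp {π : Place k (Om k)} {P : Pt a b (Om k)} (h : P.Int π) : RdP π P (P.sp π h) :=
  ⟨Rd.of_mem h.1, Rd.of_mem h.2.1, Rd.of_mem h.2.2⟩

theorem RdP.unique {π : Place k (Om k)} {P : Pt a b (Om k)} {P₀ P₁ : Pt a b k} (h : RdP π P P₀)
    (h' : RdP π P P₁) : P₀ = P₁ :=
  Pt.ext (h.t.unique h'.t) (h.x.unique h'.x) (h.y.unique h'.y)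

theorem RdP.neg {π : Place k (Om k)} {P : Pt a b (Om k)} {P₀ : Pt a b k} (h : RdP π P P₀) :
    RdP π P.neg P₀.neg := ⟨h.t, h.x, h.y.neg⟩

/-- the class of the specialisation, if both points are integral -/
theorem spv_rd {π : Place k (Om k)} {P Q : Pt a b (Om k)} {P₀ Q₀ : Pt a b k} (h : RdP π P P₀)
    (h' : RdP π Q Q₀) : spv π (P, Q) = cl P₀ Q₀ := by
  unfold spv spc cl
  rw [dif_pos ⟨h.int, h'.int⟩]
  rw [(RdP.sp h.int).unique h, (RdP.sp h'.int).unique h']

/-- the class of the specialisation, if the points are not both integral -/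
theorem spv_zero {π : Place k (Om k)} {P Q : Pt a b (Om k)} (h : ¬(P.Int π ∧ Q.Int π)) :
    spv π (P, Q) = 0 := by
  unfold spv spc
  rw [dif_neg h]
  rfl

/-- either both points are integral, or the class of the specialisation is zero -/
theorem spv_cases (π : Place k (Om k)) (P Q : Pt a b (Om k)) :
    (∃ P₀ Q₀, RdP π P P₀ ∧ RdP π Q Q₀ ∧ spv π (P, Q) = cl P₀ Q₀) ∨ spv π (P, Q) = 0 := by
  by_cases h : P.Int π ∧ Q.Int π
  · exact Or.inl ⟨_, _, RdP.sp h.1, RdP.sp h.2, spv_rd (RdP.sp h.1) (RdP.sp h.2)⟩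
  · exact Or.inr (spv_zero h)

/-- a point over `k` as a constant point over `Ω` -/
noncomputable def Pt.con (P : Pt a b k) : Pt a b (Om k) := P.map (Algebra.ofId k (Om k))

theorem con_t (P : Pt a b k) : P.con.t = cst P.t := rfl
theorem con_x (P : Pt a b k) : P.con.x = cst P.x := rfl
theorem con_y (P : Pt a b k) : P.con.y = cst P.y := rfl

theorem con_rd (π : Place k (Om k)) (P : Pt a b k) : RdP π P.con P := ⟨π.const _, π.const _, π.const _⟩

/-- the place lies over the point `u` of `ℙ¹` (`none` is the point at infinity) -/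
def OverPl (π : Place k (Om k)) : Option k → Prop
  | some c => Rd π.V π.φ (tt k) c
  | none => tt k ∉ π.V

end classes

/-- the five coordinates of a point of the fourfold `W` -/
@[ext] structure Wp (F : Type) where
  t : F
  s : F
  x : F
  y : F
  T : F

section fourfold
variable {k : Type} [Field k] (a b : k[X])

/-- the discriminant `4 a^3 + 27 b^2` -/
noncomputable def dl : k[X] := 4 * a ^ 3 + 27 * b ^ 2

variable {F : Type} [Field F] [Algebra k F]

/-- `256` times the product of the discriminants of the two fibres -/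
noncomputable def DD (w : Wp F) : F := 256 * aeval w.t (dl a b) * aeval w.s (dl a b)

/-- the equation of the fourfold `W` -/
def OnW (w : Wp F) : Prop :=
  w.T ^ 2 + w.T * (w.x ^ 3 - 48 * aeval w.t a * aeval w.s a * w.x
    + 864 * aeval w.t b * aeval w.s b - w.y ^ 2) + DD a b w = 0

/-- `y` replaced by `-y` -/
def Wp.mir (w : Wp F) : Wp F := ⟨w.t, w.s, w.x, -w.y, w.T⟩

/-- `t` and `s` exchanged -/
def Wp.swp (w : Wp F) : Wp F := ⟨w.s, w.t, w.x, w.y, w.T⟩

/-- `T` replaced by the other root of the quadratic equation -/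
noncomputable def Wp.inv (w : Wp F) : Wp F := ⟨w.t, w.s, w.x, w.y, DD a b w / w.T⟩

/-- the pair `(P, Q)` of points of the surface lies over the point `w` of `W`, with the sixth root `θ` -/
structure Over (w : Wp F) (θ : F) (P Q : Pt a b F) : Prop where
  t : P.t = w.t
  s : Q.t = w.s
  th : θ ≠ 0
  y : P.y = θ ^ 3 * Q.y
  T : 16 * aeval w.s (dl a b) * θ ^ 6 = -w.T
  e1 : θ ^ 2 * w.x = 12 * (P.x ^ 2 + P.x * (θ ^ 2 * Q.x) + (θ ^ 2 * Q.x) ^ 2)
    + 4 * (aeval w.t a + θ ^ 4 * aeval w.s a)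
  e2 : θ ^ 3 * w.y = 12 * (3 * (P.x + θ ^ 2 * Q.x) * (P.x ^ 2 + P.x * (θ ^ 2 * Q.x) + (θ ^ 2 * Q.x) ^ 2)
    + aeval w.t a * (P.x + 2 * (θ ^ 2 * Q.x)) + θ ^ 4 * aeval w.s a * (2 * P.x + θ ^ 2 * Q.x))

/-- the determinant of the linear system for the point over `w` -/
noncomputable def Qd (w : Wp F) (θ : F) : F :=
  (θ ^ 2 * w.x) ^ 2 + 4 * (aeval w.t a + θ ^ 4 * aeval w.s a) * (θ ^ 2 * w.x)
    + 16 * (aeval w.t a ^ 2 - aeval w.t a * (θ ^ 4 * aeval w.s a) + (θ ^ 4 * aeval w.s a) ^ 2)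

/-- `w` is a point of `W` over two smooth fibres and the pairs over `w` are finite, for all choices of the
sixth root -/
structure Good (w : Wp F) : Prop where
  on : OnW a b w
  dt : aeval w.t (dl a b) ≠ 0
  ds : aeval w.s (dl a b) ≠ 0
  qd : ∀ θ : F, 16 * aeval w.s (dl a b) * θ ^ 6 = -w.T → Qd a w θ ≠ 0

/-- `T^2` times the discriminant of the cubic in `x` -/
noncomputable def Disc (w : Wp F) : F :=
  4 * (-48 * aeval w.t a * aeval w.s a) ^ 3 * w.T ^ 2
    + 27 * (864 * aeval w.t b * aeval w.s b * w.T + w.T ^ 2 + DD a b w) ^ 2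

/-- `w` and its swap are good, and the cubic curve in the `(x, y)`-plane is smooth -/
structure GG (w : Wp F) : Prop where
  g : Good a b w
  g' : Good a b w.swp
  disc : Disc a b w ≠ 0

end fourfold

section spec
variable {k : Type} [Field k]

instance instCharZeroOm [CharZero k] : CharZero (Om k) :=
  charZero_of_injective_algebraMap (algebraMap k (Om k)).injective

/-- the five coordinates of `w` are integral and specialise to the coordinates of `w₀` -/
structure RdW (π : Place k (Om k)) (w : Wp (Om k)) (w₀ : Wp k) : Prop where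
  t : Rd π.V π.φ w.t w₀.t
  s : Rd π.V π.φ w.s w₀.s
  x : Rd π.V π.φ w.x w₀.x
  y : Rd π.V π.φ w.y w₀.y
  T : Rd π.V π.φ w.T w₀.T

theorem RdW.mir {π : Place k (Om k)} {w : Wp (Om k)} {w₀ : Wp k} (h : RdW π w w₀) :
    RdW π w.mir w₀.mir := ⟨h.t, h.s, h.x, h.y.neg, h.T⟩

theorem RdW.swp {π : Place k (Om k)} {w : Wp (Om k)} {w₀ : Wp k} (h : RdW π w w₀) :
    RdW π w.swp w₀.swp := ⟨h.s, h.t, h.x, h.y, h.T⟩

end spec

end H71.K3
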