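import Pool.Agent.H71.K3.Rdt

/-! # K3.Cof : a nonzero algebraic function has nonzero finite values at almost all points (about 90 lines)

PROOF of `cof`. `z` is algebraic over `k(t)`, so there is a nonzero `G ∈ k[t][Y]` with `G(tt, z) = 0` (as in the proof of `place_exists`,
`IsFractionRing.isAlgebraic_iff`).  Dividing by a power of `Y` (`z ≠ 0`) the constant coefficient `G_0(t)` is nonzero; the leading coefficient
`G_n(t)` is nonzero.  Let `B` be the roots of `G_0 G_n`.  For `c ∉ B` and a place over `c` the coefficients `G_i(tt)` are integral with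
reduction `G_i(c)` (`rd_aeval`), `G_n(c) ≠ 0`, so `z` is integral (`int_root` with `G` as a polynomial over `Ω`, coefficients `G_i(tt)`) and its
reduction `z₀` satisfies `∑ G_i(c) z₀^i = 0`, `G_0(c) ≠ 0`, so `z₀ ≠ 0`. -/

namespace H71.K3

open Polynomial H68.BB

variable {k : Type} [Field k] [IsAlgClosed k]

private theorem cof_algMap_X (k : Type) [Field k] : algebraMap k[X] (Om k) X = tt k := by
  rw [IsScalarTower.algebraMap_apply k[X] (RatFunc k) (Om k), RatFunc.algebraMap_X]
  rfl

private theorem cof_algMap_C (k : Type) [Field k] (c : k) :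
    algebraMap k[X] (Om k) (C c) = algebraMap k (Om k) c := by
  rw [IsScalarTower.algebraMap_apply k[X] (RatFunc k) (Om k), RatFunc.algebraMap_C]
  change _ = algebraMap k (Om k) c
  rw [IsScalarTower.algebraMap_apply k (RatFunc k) (Om k)]
  rfl

private theorem cof_algMap_eq (k : Type) [Field k] (p : k[X]) :
    algebraMap k[X] (Om k) p = aeval (tt k) p := by
  induction p using Polynomial.induction_on with
  | C a => rw [cof_algMap_C, aeval_C]
  | add p q hp hq => rw [map_add, map_add, hp, hq]
  | monomial n a _ =>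
    rw [map_mul, map_mul, map_pow, map_pow, cof_algMap_C, cof_algMap_X, aeval_C, aeval_X]

theorem cof {z : Om k} (hz : z ≠ 0) : ∃ B : Finset k, ∀ c : k, c ∉ B → ∀ π : Place k (Om k),
    OverPl π (some c) → ∃ z₀ : k, z₀ ≠ 0 ∧ Rd π.V π.φ z z₀ := by
  classical
  have halg : IsAlgebraic k[X] z :=
    (IsFractionRing.isAlgebraic_iff k[X] (RatFunc k) (Om k)).mpr
      (Algebra.IsAlgebraic.isAlgebraic _)
  obtain ⟨G, hG0, hGz⟩ := halg.exists_nonzero_coeff_and_aeval_eq_zero
    (mem_nonZeroDivisors_of_ne_zero hz)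
  have hG : G ≠ 0 := by
    rintro rfl
    exact hG0 (coeff_zero 0)
  have hlc : G.leadingCoeff ≠ 0 := leadingCoeff_ne_zero.mpr hG
  refine ⟨(G.coeff 0 * G.leadingCoeff).roots.toFinset, ?_⟩
  intro c hc π hπ
  rw [Multiset.mem_toFinset, mem_roots (mul_ne_zero hG0 hlc), IsRoot.def, eval_mul,
    mul_eq_zero, not_or] at hc
  obtain ⟨hc0, hcn⟩ := hc
  have hR : RdQ π (G.map (algebraMap k[X] (Om k))) (G.map (evalRingHom c)) := by
    intro i
    rw [coeff_map, coeff_map, cof_algMap_eq, coe_evalRingHom, ← coe_aeval_eq_eval]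
    exact rd_aeval π hπ _
  have hz0 : (G.map (algebraMap k[X] (Om k))).eval z = 0 := by
    rw [eval_map]
    exact hGz
  obtain ⟨z₀, h1, h2⟩ := int_root π (n := G.natDegree) natDegree_map_le hR
    (by rw [coeff_map, coe_evalRingHom]; exact hcn) hz0
  refine ⟨z₀, ?_, h1⟩
  rintro rfl
  rw [← coeff_zero_eq_eval_zero, coeff_map, coe_evalRingHom] at h2
  exact hc0 h2

end H71.K3
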