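import Pool.Agent.H67.KH.Krull

/-! # K3.Zeros : fewer equations than unknowns (from helper21's theorem `krull`)

PROOF. Let `I` be the ideal of the `f i`, `m₀` the maximal ideal of the origin (kernel of `eval 0`).  If `0` is the only common zero then by the
Nullstellensatz the radical of `I` is `m₀`, so `m₀` is a minimal prime over `I` and has height at most `n` by Krull's
height theorem.  But `m₀` has height `m`. -/

namespace H71.K3

theorem exists_zero {k : Type} [Field k] [IsAlgClosed k] {n m : ℕ} (h : n < m)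
    (f : Fin n → MvPolynomial (Fin m) k) (h0 : ∀ i, MvPolynomial.eval 0 (f i) = 0) :
    ∃ v : Fin m → k, v ≠ 0 ∧ ∀ i, MvPolynomial.eval v (f i) = 0 := by
  obtain ⟨l, rfl⟩ : ∃ l, m = l + 1 := ⟨m - 1, by omega⟩
  obtain ⟨u, hu, hz⟩ := H67.KH.krull (fun i : Fin l => if hi : (i : ℕ) < n then f ⟨i, hi⟩ else 0) (by
    intro i
    by_cases hi : (i : ℕ) < n
    · simp only [dif_pos hi]
      exact h0 _
    · simp only [dif_neg hi]
      exact map_zero _)
  refine ⟨u, hu, fun i => ?_⟩
  have h1 := hz ⟨(i : ℕ), lt_of_lt_of_le i.isLt (by omega)⟩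
  simp only [dif_pos i.isLt] at h1
  exact h1

end H71.K3
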