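import Pool.Agent.H68.BB.Red
import Pool.Agent.H68.BB.Plc

/-! # K3.Defs : zero-cycles on the fourfold `S × S`, `S` the affine elliptic surface `y^2 = x^3 + a(t) x + b(t)`

`Om k` is an algebraic closure of `k(t)`, `tt k` the variable, `Place k Ω` a valuation subring `V` of `Ω` containing `k` with a ring
homomorphism `φ : V → k` which is the identity on `k`, `Rd V φ x c` says that `x ∈ V` and `φ x = c`. -/

namespace H71.K3

open Polynomial H68.BB

/-- a point `(t, x, y)` with coordinates in `F` of the affine surface `y^2 = x^3 + a(t) x + b(t)` -/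
@[ext] structure Pt {k : Type} [Field k] (a b : k[X]) (F : Type) [Field F] [Algebra k F] where
  t : F
  x : F
  y : F
  eq : y ^ 2 = x ^ 3 + aeval t a * x + aeval t b

section basic
variable {k : Type} [Field k] {a b : k[X]} {F F' : Type} [Field F] [Algebra k F] [Field F'] [Algebra k F']

/-- the image of a point under a homomorphism of `k`-algebras -/
def Pt.map (f : F →ₐ[k] F') (P : Pt a b F) : Pt a b F' where
  t := f P.t
  x := f P.x
  y := f P.y
  eq := by
    have h := congrArg f P.eq
    rw [map_pow, map_add, map_add, map_mul, map_pow] at h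
    rw [aeval_algHom_apply, aeval_algHom_apply]
    exact h

/-- the opposite point `(t, x, -y)` of the same fibre -/
def Pt.neg (P : Pt a b F) : Pt a b F where
  t := P.t
  x := P.x
  y := -P.y
  eq := by rw [neg_sq]; exact P.eq

/-- pairs of points, that is points of `S × S` -/
abbrev PP (a b : k[X]) (F : Type) [Field F] [Algebra k F] : Type := Pt a b F × Pt a b F

end basic

section cycles
variable {k : Type} [Field k] {a b : k[X]}

/-- reduction commutes with polynomials over `k` -/
theorem rd_aeval (π : Place k (Om k)) {z : Om k} {c : k} (h : Rd π.V π.φ z c) (p : k[X]) :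
    Rd π.V π.φ (aeval z p) (aeval c p) := by
  induction p using Polynomial.induction_on' with
  | add p q hp hq => rw [map_add, map_add]; exact hp.add hq
  | monomial n r =>
    rw [aeval_monomial, aeval_monomial]
    exact Rd.mul (π.const r) (h.pow n)

/-- all three coordinates are integral at the place -/
def Pt.Int (π : Place k (Om k)) (P : Pt a b (Om k)) : Prop := P.t ∈ π.V ∧ P.x ∈ π.V ∧ P.y ∈ π.V

/-- the specialisation of a point with integral coordinates: apply `φ` to the coordinates -/
noncomputable def Pt.sp (π : Place k (Om k)) (P : Pt a b (Om k)) (h : P.Int π) : Pt a b k where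
  t := π.φ ⟨P.t, h.1⟩
  x := π.φ ⟨P.x, h.2.1⟩
  y := π.φ ⟨P.y, h.2.2⟩
  eq := by
    have ht : Rd π.V π.φ P.t (π.φ ⟨P.t, h.1⟩) := Rd.of_mem h.1
    have hx : Rd π.V π.φ P.x (π.φ ⟨P.x, h.2.1⟩) := Rd.of_mem h.2.1
    have hy : Rd π.V π.φ P.y (π.φ ⟨P.y, h.2.2⟩) := Rd.of_mem h.2.2
    have h1 := ((hx.pow 3).add ((rd_aeval π ht a).mul hx)).add (rd_aeval π ht b)
    rw [← P.eq] at h1
    exact (hy.pow 2).unique h1

variable (a b) in
/-- zero-cycles on `S × S` over `k` -/
abbrev Cyc : Type := PP a b k →₀ ℤ

/-- the zero-cycle given by one pair of points -/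
noncomputable def pt (P Q : Pt a b k) : Cyc a b := Finsupp.single (P, Q) 1

open Classical in
/-- specialisation of a pair of points: the pair of the specialisations if all coordinates are integral,
and the zero cycle otherwise (the point leaves the affine variety) -/
noncomputable def spc (π : Place k (Om k)) (p : PP a b (Om k)) : Cyc a b :=
  if h : p.1.Int π ∧ p.2.Int π then pt (p.1.sp π h.1) (p.2.sp π h.2) else 0

/-- a pair of points moved by an automorphism of `Ω` over `k(t)` -/
noncomputable def act (σ : Om k ≃ₐ[RatFunc k] Om k) (p : PP a b (Om k)) : PP a b (Om k) :=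
  (p.1.map (σ.restrictScalars k : Om k →ₐ[k] Om k), p.2.map (σ.restrictScalars k : Om k →ₐ[k] Om k))

/-- a finite multiset of points of `S × S` over `Ω` which is stable under all automorphisms of `Ω` over
`k(t)`: the generic fibre of an effective 1-cycle of `ℙ¹ × S × S` whose components dominate `ℙ¹` -/
def GalStable (M : Multiset (PP a b (Om k))) : Prop :=
  ∀ σ : Om k ≃ₐ[RatFunc k] Om k, M.map (act σ) = M

/-- the fibre of the 1-cycle at the point of `ℙ¹` below the place -/
noncomputable def fib (M : Multiset (PP a b (Om k))) (π : Place k (Om k)) : Cyc a b :=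
  (M.map (spc π)).sum

variable (a b) in
/-- rational equivalence to zero of zero-cycles on the affine variety `S × S` -/
noncomputable def RatEq : AddSubgroup (Cyc a b) :=
  AddSubgroup.closure {z | ∃ (M : Multiset (PP a b (Om k))) (π π' : Place k (Om k)),
    GalStable M ∧ z = fib M π - fib M π'}

end cycles

end H71.K3
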