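import Pool.Agent.H71.K3.Base

/-! # K3.Rdt : tools for reductions at a place (about 200 lines)

`π.φ` is a local homomorphism (`π.isLocal`), `V` is integrally closed in `Ω` (valuation ring; or directly: if `z ∉ V` then `z⁻¹ ∈ V` reduces to
`0`, `Rd.inv_zero`).
`rd_pow_root`: if `z ∉ V` then `z⁻¹ ↦ 0`, so `(z^n)⁻¹ ↦ 0` and `z^n ∉ V`.
`rd_sq`: `z ↦ z₀` with `z₀^2 = c^2`.
`exists_quad`: a root of `X^2 - p X + q`.
`rd_quad`: `z^2 - (z+z') z + z z' = 0` with integral coefficients, so `z` is integral (if `z⁻¹ ↦ 0` then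
`1 - (z+z') z⁻¹ + z z' z⁻²  = 0` reduces to `1 = 0`), `z' = (z+z') - z` too, and the reductions `e, e'` have the same sum and product as `c, c'`,
so `(e - c)(e - c') = 0`.
`RdQ π G G₀`: the coefficients of `G` are integral and reduce to those of `G₀`.  `RdQ.mul` by `coeff_mul`.
`RdQ.eval`: `eval` is a finite sum over the support; or induction on a degree bound common to `G` and `G₀`: `eval_eq_sum_range'` for both.
`int_root`: `G(z) = 0`, `deg G ≤ n`, coefficient `n` reduces to a nonzero element.  If `z ∉ V`: divide by `z^n`: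
`G_n + ∑_{i<n} G_i (z⁻¹)^(n-i) = 0` reduces to `G₀_n = 0`, contradiction.  So `z` is integral; reduce `G(z) = 0` (`RdQ.eval`). -/

namespace H71.K3

open Polynomial H68.BB

variable {k : Type} [Field k]

theorem rd_pow_root (π : Place k (Om k)) {z : Om k} {c : k} {n : ℕ} (hn : 0 < n)
    (h : Rd π.V π.φ (z ^ n) c) : ∃ z₀ : k, Rd π.V π.φ z z₀ ∧ z₀ ^ n = c := by
  have := π.isLocal
  by_cases hz : z ∈ π.V
  · exact ⟨_, Rd.of_mem hz, ((Rd.of_mem hz).pow n).unique h⟩
  · exfalso
    have hz0 : z ≠ 0 := by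
      rintro rfl
      exact hz π.V.zero_mem
    have h1 : Rd π.V π.φ (z ^ n)⁻¹ 0 := by
      have h2 := (Rd.inv_zero (φ := π.φ) hz).pow n
      rwa [zero_pow hn.ne', inv_pow] at h2
    exact h1.not_mem (pow_ne_zero n hz0) h.mem

theorem rd_sq (π : Place k (Om k)) {z : Om k} {c : k} (h : Rd π.V π.φ (z ^ 2) (c ^ 2)) :
    Rd π.V π.φ z c ∨ Rd π.V π.φ z (-c) := by
  obtain ⟨z₀, h1, h2⟩ := rd_pow_root π two_pos h
  rcases sq_eq_sq_iff_eq_or_eq_neg.1 h2 with h3 | h3
  · exact Or.inl (h3 ▸ h1)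
  · exact Or.inr (h3 ▸ h1)

theorem exists_quad {F : Type} [Field F] [IsAlgClosed F] (p q : F) : ∃ z z' : F, z + z' = p ∧ z * z' = q := by
  have hd : (X ^ 2 + (C (-p) * X + C q) : F[X]).degree = 2 := by
    compute_degree!
  obtain ⟨z, hz⟩ := IsAlgClosed.exists_root (X ^ 2 + (C (-p) * X + C q) : F[X]) (by
    rw [hd]
    norm_num)
  have h1 : z ^ 2 + (-p * z + q) = 0 := by
    have h2 := hz
    unfold IsRoot at h2
    simpa using h2
  exact ⟨z, p - z, by ring, by linear_combination -h1⟩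

theorem rd_quad (π : Place k (Om k)) {z z' : Om k} {c c' : k} (h1 : Rd π.V π.φ (z + z') (c + c'))
    (h2 : Rd π.V π.φ (z * z') (c * c')) :
    (Rd π.V π.φ z c ∧ Rd π.V π.φ z' c') ∨ (Rd π.V π.φ z c' ∧ Rd π.V π.φ z' c) := by
  have := π.isLocal
  have hz : z ∈ π.V := by
    by_contra hz
    have hz0 : z ≠ 0 := by
      rintro rfl
      exact hz π.V.zero_mem
    have hi := Rd.inv_zero (φ := π.φ) hz
    have h3 := (Rd.one.sub (h1.mul hi)).add (h2.mul (hi.pow 2))
    have e : 1 - (z + z') * z⁻¹ + z * z' * z⁻¹ ^ 2 = 0 := by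
      field_simp
      ring
    rw [e] at h3
    have h4 := Rd.zero.unique h3
    have h5 : (0 : k) = 1 := by
      rw [h4]
      ring
    exact zero_ne_one h5
  obtain ⟨e, he⟩ : ∃ e : k, Rd π.V π.φ z e := ⟨_, Rd.of_mem hz⟩
  have he' : Rd π.V π.φ z' (c + c' - e) := by
    have h3 := h1.sub he
    rwa [add_sub_cancel_left] at h3
  have h3 := (he.mul he').unique h2
  have h4 : (e - c) * (e - c') = 0 := by linear_combination -h3
  rcases mul_eq_zero.1 h4 with h5 | h5
  · have h6 : e = c := by linear_combination h5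
    left
    refine ⟨h6 ▸ he, ?_⟩
    have h7 : c + c' - e = c' := by rw [h6]; ring
    rwa [h7] at he'
  · have h6 : e = c' := by linear_combination h5
    right
    refine ⟨h6 ▸ he, ?_⟩
    have h7 : c + c' - e = c := by rw [h6]; ring
    rwa [h7] at he'

/-- an element of `Ω` algebraic over `k` is not needed: a constant numeral -/
theorem rd_nat (π : Place k (Om k)) (n : ℕ) : Rd π.V π.φ (n : Om k) (n : k) := by
  have h : Rd π.V π.φ (algebraMap k (Om k) (n : k)) (n : k) := π.const _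
  rwa [map_natCast] at h

/-- the same for numerals written as literals, for example `16` -/
theorem rd_ofNat (π : Place k (Om k)) (n : ℕ) [n.AtLeastTwo] :
    Rd π.V π.φ (OfNat.ofNat n : Om k) (OfNat.ofNat n : k) := by
  have h := rd_nat π (OfNat.ofNat n)
  rwa [Nat.cast_ofNat, Nat.cast_ofNat] at h

private theorem rd_sum (π : Place k (Om k)) {ι : Type} (s : Finset ι) {f : ι → Om k} {g : ι → k}
    (h : ∀ i ∈ s, Rd π.V π.φ (f i) (g i)) : Rd π.V π.φ (∑ i ∈ s, f i) (∑ i ∈ s, g i) := by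
  classical
  induction s using Finset.induction_on with
  | empty => exact Rd.zero
  | insert i s hi ih =>
    rw [Finset.sum_insert hi, Finset.sum_insert hi]
    exact (h i (Finset.mem_insert_self i s)).add
      (ih fun j hj => h j (Finset.mem_insert_of_mem hj))

/-- the coefficients of `G` are integral and reduce to the coefficients of `G₀` -/
def RdQ (π : Place k (Om k)) (G : (Om k)[X]) (G₀ : k[X]) : Prop :=
  ∀ i, Rd π.V π.φ (G.coeff i) (G₀.coeff i)

theorem RdQ.add {π : Place k (Om k)} {G H : (Om k)[X]} {G₀ H₀ : k[X]} (h : RdQ π G G₀) (h' : RdQ π H H₀) :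
    RdQ π (G + H) (G₀ + H₀) := by
  intro i
  rw [coeff_add, coeff_add]
  exact (h i).add (h' i)

theorem RdQ.sub {π : Place k (Om k)} {G H : (Om k)[X]} {G₀ H₀ : k[X]} (h : RdQ π G G₀) (h' : RdQ π H H₀) :
    RdQ π (G - H) (G₀ - H₀) := by
  intro i
  rw [coeff_sub, coeff_sub]
  exact (h i).sub (h' i)

theorem RdQ.mul {π : Place k (Om k)} {G H : (Om k)[X]} {G₀ H₀ : k[X]} (h : RdQ π G G₀) (h' : RdQ π H H₀) :
    RdQ π (G * H) (G₀ * H₀) := by
  intro i
  rw [coeff_mul, coeff_mul]
  exact rd_sum π _ fun p _ => (h p.1).mul (h' p.2)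

theorem RdQ.pow {π : Place k (Om k)} {G : (Om k)[X]} {G₀ : k[X]} (h : RdQ π G G₀) (n : ℕ) :
    RdQ π (G ^ n) (G₀ ^ n) := by
  induction n with
  | zero =>
    intro i
    rw [pow_zero, pow_zero, coeff_one, coeff_one]
    split_ifs
    · exact Rd.one
    · exact Rd.zero
  | succ n ih =>
    rw [pow_succ, pow_succ]
    exact ih.mul h

theorem RdQ.C {π : Place k (Om k)} {z : Om k} {c : k} (h : Rd π.V π.φ z c) : RdQ π (C z) (C c) := by
  intro i
  rw [coeff_C, coeff_C]
  split_ifs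
  · exact h
  · exact Rd.zero

theorem RdQ.X {π : Place k (Om k)} : RdQ π (X : (Om k)[X]) (X : k[X]) := by
  intro i
  rw [coeff_X, coeff_X]
  split_ifs
  · exact Rd.one
  · exact Rd.zero

/-- constant polynomials: the image of `p` in `Ω[X]` -/
theorem RdQ.map {π : Place k (Om k)} (p : k[X]) : RdQ π (p.map (algebraMap k (Om k))) p := by
  intro i
  rw [coeff_map]
  exact π.const _

theorem RdQ.eval {π : Place k (Om k)} {G : (Om k)[X]} {G₀ : k[X]} (h : RdQ π G G₀) {z : Om k} {c : k}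
    (hz : Rd π.V π.φ z c) : Rd π.V π.φ (G.eval z) (G₀.eval c) := by
  have h1 : G.natDegree < max G.natDegree G₀.natDegree + 1 := by
    have := le_max_left G.natDegree G₀.natDegree
    omega
  have h2 : G₀.natDegree < max G.natDegree G₀.natDegree + 1 := by
    have := le_max_right G.natDegree G₀.natDegree
    omega
  rw [eval_eq_sum_range' h1, eval_eq_sum_range' h2]
  exact rd_sum π _ fun i _ => (h i).mul (hz.pow i)

theorem int_root (π : Place k (Om k)) {G : (Om k)[X]} {G₀ : k[X]} {n : ℕ} (hG : G.natDegree ≤ n)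
    (h : RdQ π G G₀) (hn : G₀.coeff n ≠ 0) {z : Om k} (hz : G.eval z = 0) :
    ∃ z₀ : k, Rd π.V π.φ z z₀ ∧ G₀.eval z₀ = 0 := by
  have := π.isLocal
  by_cases hzV : z ∈ π.V
  · refine ⟨_, Rd.of_mem hzV, ?_⟩
    have h1 := h.eval (Rd.of_mem (φ := π.φ) hzV)
    rw [hz] at h1
    exact (Rd.zero.unique h1).symm
  · exfalso
    have hz0 : z ≠ 0 := by
      rintro rfl
      exact hzV π.V.zero_mem
    have hi := Rd.inv_zero (φ := π.φ) hzV
    have h1 : Rd π.V π.φ (∑ i ∈ Finset.range (n + 1), G.coeff i * z⁻¹ ^ (n - i))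
        (∑ i ∈ Finset.range (n + 1), G₀.coeff i * (0 : k) ^ (n - i)) :=
      rd_sum π _ fun i _ => (h i).mul (hi.pow (n - i))
    have h2 : ∑ i ∈ Finset.range (n + 1), G.coeff i * z⁻¹ ^ (n - i) = 0 := by
      have h3 : G.natDegree < n + 1 := Nat.lt_succ_of_le hG
      have h4 := hz
      rw [eval_eq_sum_range' h3] at h4
      have h5 : ∑ i ∈ Finset.range (n + 1), G.coeff i * z⁻¹ ^ (n - i) =
          (∑ i ∈ Finset.range (n + 1), G.coeff i * z ^ i) * z⁻¹ ^ n := by
        rw [Finset.sum_mul]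
        refine Finset.sum_congr rfl ?_
        intro i hi'
        have h6 : i ≤ n := Nat.le_of_lt_succ (Finset.mem_range.1 hi')
        have h7 : z⁻¹ ^ n = z⁻¹ ^ i * z⁻¹ ^ (n - i) := by
          rw [← pow_add, Nat.add_sub_cancel' h6]
        have h8 : z ^ i * z⁻¹ ^ i = 1 := by
          rw [← mul_pow, mul_inv_cancel₀ hz0, one_pow]
        rw [h7]
        calc G.coeff i * z⁻¹ ^ (n - i) = G.coeff i * (z ^ i * z⁻¹ ^ i) * z⁻¹ ^ (n - i) := by
              rw [h8, mul_one]
          _ = _ := by ring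
      rw [h5, h4, zero_mul]
    have h3 : ∑ i ∈ Finset.range (n + 1), G₀.coeff i * (0 : k) ^ (n - i) = G₀.coeff n := by
      rw [Finset.sum_eq_single_of_mem n (Finset.self_mem_range_succ n)]
      · rw [Nat.sub_self, pow_zero, mul_one]
      · intro i hi' hin
        have h6 : i ≤ n := Nat.le_of_lt_succ (Finset.mem_range.1 hi')
        have h7 : n - i ≠ 0 := by omega
        rw [zero_pow h7, mul_zero]
    rw [h2, h3] at h1
    exact hn (Rd.zero.unique h1).symm

end H71.K3
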